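import Pool.Agent.H793.Nil.S3Frame

/-! S3c: lower bound `1/8` for the injectivity radius of the Heisenberg nilmanifold. -/

set_option autoImplicit false

open scoped ContDiff Topology
open MeasureTheory Matrix

namespace Pool.Agent.H935.NIL

open Pool.Agent.H85R3.RM Pool.Agent.H793.Nil

theorem int_zero_of_abs {a : ℤ} {c : ℝ} (hc : 1 ≤ c) (h : |c * (a : ℝ)| ≤ 1 / 2) : a = 0 := by
  by_contra hne
  have h1 : (1 : ℝ) ≤ |(a : ℝ)| := by
    have : (1 : ℤ) ≤ |a| := Int.one_le_abs hne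
    have h2 : ((1 : ℤ) : ℝ) ≤ ((|a| : ℤ) : ℝ) := by exact_mod_cast this
    rw [Int.cast_abs] at h2
    simpa using h2
  rw [abs_mul, abs_of_pos (by linarith : 0 < c)] at h
  nlinarith

theorem normSq_heis {e : ℕ} (he : 0 < e) (x v : Fin 3 → ℝ) :
    normSq (heis e he) x v = v 0 ^ 2 + v 1 ^ 2 + (v 2 - x 0 * v 1) ^ 2 := by
  have h : normSq (heis e he) x v = v ⬝ᵥ (met x *ᵥ v) := rfl
  rw [h, met_apply]
  ring

/-- the exponential maps are injective on balls of radius `1/8` -/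
theorem exp_inj (e : ℕ) (he : 0 < e) : ExpInjective (heis e he) (1 / 8) := by
  intro γ₁ γ₂ h1 h2 h0 hn1 hn2 g hg
  have he1 : (1 : ℝ) ≤ e := by exact_mod_cast he
  have f1 := geodesic_frame h1
  have f2 := geodesic_frame h2
  rw [normSq_heis] at hn1 hn2
  have s1 := frame_size f1 hn1
  have s2 := frame_size f2 hn2
  have hg' : dact g (γ₁ 1) = γ₂ 1 := hg
  have g0 : γ₁ 1 0 + e * (g.a : ℝ) = γ₂ 1 0 := by
    have := congrFun hg' 0
    simpa [dact, lt] using this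
  have g1 : γ₁ 1 1 + (g.b : ℝ) = γ₂ 1 1 := by
    have := congrFun hg' 1
    simpa [dact, lt] using this
  have g2 : γ₁ 1 2 + (g.c : ℝ) + e * (g.a : ℝ) * γ₁ 1 1 = γ₂ 1 2 := by
    have := congrFun hg' 2
    simpa [dact, lt] using this
  have p0 : γ₁ 0 0 = γ₂ 0 0 := congrFun h0 0
  have p1 : γ₁ 0 1 = γ₂ 0 1 := congrFun h0 1
  have p2 : γ₁ 0 2 = γ₂ 0 2 := congrFun h0 2
  obtain ⟨a1, a2, a3⟩ := s1
  obtain ⟨b1, b2, b3⟩ := s2
  rw [abs_le] at a1 a2 a3 b1 b2 b3
  have ha : g.a = 0 := by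
    refine int_zero_of_abs he1 ?_
    rw [abs_le]
    constructor <;> linarith
  have hb : g.b = 0 := by
    refine int_zero_of_abs (le_refl (1 : ℝ)) ?_
    rw [one_mul, abs_le]
    constructor <;> linarith
  rw [ha] at g0 g2
  rw [hb] at g1
  simp only [Int.cast_zero, mul_zero, zero_mul, add_zero] at g0 g1 g2
  have hc : g.c = 0 := by
    refine int_zero_of_abs (le_refl (1 : ℝ)) ?_
    rw [one_mul, abs_le]
    rw [← p0, ← p1, ← p2, ← g1, ← g2] at b3
    constructor <;> linarith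
  rw [hc] at g2
  simp only [Int.cast_zero, add_zero] at g2
  obtain ⟨u, v, w⟩ := frame_inj f1 f2 hn1 hn2 p0 p1 p2 g0 g1 g2
  have w' : deriv γ₁ 0 2 = deriv γ₂ 0 2 := by
    rw [p0, v] at w
    linarith
  funext i
  fin_cases i
  · exact u
  · exact v
  · exact w'

/-- vertical lines are geodesics -/
theorem line_geodesic (e : ℕ) (he : 0 < e) (c : ℝ) :
    IsGeodesic (heis e he) (fun t : ℝ => t • (![0, 0, c] : Fin 3 → ℝ)) := by
  have hd : deriv (fun t : ℝ => t • (![0, 0, c] : Fin 3 → ℝ)) = fun _ => ![0, 0, c] := by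
    funext t
    have h := (hasDerivAt_id t).smul_const (![0, 0, c] : Fin 3 → ℝ)
    rw [one_smul] at h
    exact h.deriv
  refine ⟨fun t => Set.mem_univ _, contDiff_id.smul contDiff_const, fun t k => ?_⟩
  rw [hd]
  have h1 : deriv (fun _ : ℝ => (![0, 0, c] : Fin 3 → ℝ)) t = 0 := deriv_const _ _
  rw [h1]
  have h2 : ∀ i j : Fin 3, christoffel (heis e he).metric k i j (t • (![0, 0, c] : Fin 3 → ℝ)) =
      chr ((t • (![0, 0, c] : Fin 3 → ℝ)) 0) k i j := fun i j => christoffel_met k i j _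
  simp only [h2]
  rw [Fin.sum_univ_three]
  simp only [Fin.sum_univ_three]
  fin_cases k <;> simp [chr]

theorem normSq_line (e : ℕ) (he : 0 < e) (c : ℝ) :
    normSq (heis e he) ((fun t : ℝ => t • (![0, 0, c] : Fin 3 → ℝ)) 0)
      (deriv (fun t : ℝ => t • (![0, 0, c] : Fin 3 → ℝ)) 0) = c ^ 2 := by
  have h := (hasDerivAt_id (0 : ℝ)).smul_const (![0, 0, c] : Fin 3 → ℝ)
  rw [one_smul] at h
  have h' : deriv (fun t : ℝ => t • (![0, 0, c] : Fin 3 → ℝ)) 0 = ![0, 0, c] := h.deriv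
  rw [h', normSq_heis]
  simp

/-- the radii are bounded -/
theorem radius_le (e : ℕ) (he : 0 < e) {r : ℝ} (h : ExpInjective (heis e he) r) : r ≤ 1 := by
  by_contra hr
  push Not at hr
  have h1 := h (fun t : ℝ => t • (![0, 0, 0] : Fin 3 → ℝ)) (fun t : ℝ => t • (![0, 0, 1] : Fin 3 → ℝ))
    (line_geodesic e he 0) (line_geodesic e he 1) (by simp)
    (by rw [normSq_line]; nlinarith) (by rw [normSq_line]; nlinarith)
    (⟨0, 0, 1⟩ : Dk e) (by
      show dact (⟨0, 0, 1⟩ : Dk e) ((1 : ℝ) • (![0, 0, 0] : Fin 3 → ℝ)) =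
        (1 : ℝ) • (![0, 0, 1] : Fin 3 → ℝ)
      funext i
      fin_cases i <;> simp [dact, lt])
  have hd : ∀ c : ℝ, deriv (fun t : ℝ => t • (![0, 0, c] : Fin 3 → ℝ)) 0 = ![0, 0, c] := by
    intro c
    have h := (hasDerivAt_id (0 : ℝ)).smul_const (![0, 0, c] : Fin 3 → ℝ)
    rw [one_smul] at h
    exact h.deriv
  rw [hd, hd] at h1
  have h2 := congrFun h1 2
  simp at h2

/-- S3c -/
theorem injRadius_heis (e : ℕ) (he : 0 < e) : 1 / 8 ≤ injRadius (heis e he) := by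
  unfold injRadius
  exact le_csSup ⟨1, fun r hr => radius_le e he hr.2⟩ ⟨by norm_num, exp_inj e he⟩

end Pool.Agent.H935.NIL
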